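import Mathlib

/-!
# MP_18d2fb_an: the derivative on flat smooth functions and Neumann series

`Flat 𝕜` is the Fréchet space of the smooth functions on `[0, 1]` all of whose derivatives vanish at
`0`, with the topology of uniform convergence of all derivatives. For the derivative `D` on this
space, `I - μ D` is bijective for every scalar `μ`, but the Neumann series `∑ μᵏ Dᵏ f` diverges for
every `f ≠ 0` and every `μ ≠ 0`.

More generally, let `V` be a quasinilpotent operator on a Banach space `X`. On the Fréchet space of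
all sequences `y` in `X` with `V (y (k + 1)) = y k` the shift `D` has these properties. For the
Volterra operator on `C[0, 1]` this is the first example (`y k` is the `k`-th derivative).
-/

set_option autoImplicit false

open Set Filter Topology
open scoped Uniformity

namespace Pool.Agent.Results.MP_18d2fb_an.DerivativeOnFlatFunctions

/-- Spaces of type `(B₀)`, i.e. Fréchet spaces: Hausdorff complete topological vector spaces whose
topology is given by seminorms and is metrizable (countably generated uniformity). -/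
structure IsFrechetSpace (𝕜 E : Type) [RCLike 𝕜] [AddCommGroup E] [Module 𝕜 E] [UniformSpace E] :
    Prop where
  isUniformAddGroup : IsUniformAddGroup E
  continuousSMul : ContinuousSMul 𝕜 E
  t2 : T2Space E
  complete : CompleteSpace E
  countable : (𝓤 E).IsCountablyGenerated
  polynormable : PolynormableSpace 𝕜 E

/-- The Neumann series `∑ μᵏ Uᵏ x` converges in `E` to `s`. -/
def NeumannConvergesTo {𝕜 E : Type} [RCLike 𝕜] [AddCommGroup E] [Module 𝕜 E] [UniformSpace E]
    (U : E →L[𝕜] E) (μ : 𝕜) (x s : E) : Prop :=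
  Tendsto (fun N : ℕ => ∑ k ∈ Finset.range N, μ ^ k • (U^[k]) x) atTop (𝓝 s)

section General

variable {𝕜 X : Type} [RCLike 𝕜] [NormedAddCommGroup X] [NormedSpace 𝕜 X]

/-- The shift on a space `W` of sequences which is invariant under the shift. -/
def shift (W : Submodule 𝕜 (ℕ → X)) (hW : ∀ y ∈ W, (fun k => y (k + 1)) ∈ W) : W →L[𝕜] W where
  toFun y := ⟨fun k => y.1 (k + 1), hW y.1 y.2⟩
  map_add' _ _ := rfl
  map_smul' _ _ := rfl
  cont := by
    refine Continuous.subtype_mk ?_ _
    exact continuous_pi fun k => (continuous_apply (k + 1)).comp continuous_subtype_val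

/-- The backward orbits of the operator `V`: the sequences `y` with `V (y (k + 1)) = y k`. -/
def Orb (V : X →L[𝕜] X) : Submodule 𝕜 (ℕ → X) where
  carrier := {y | ∀ k, V (y (k + 1)) = y k}
  add_mem' := by
    intro x y hx hy k
    show V (x (k + 1) + y (k + 1)) = x k + y k
    rw [map_add, hx, hy]
  zero_mem' := by
    intro k
    show V 0 = 0
    exact map_zero V
  smul_mem' := by
    intro c x hx k
    show V (c • x (k + 1)) = c • x k
    rw [map_smul, hx]

lemma shift_mem {V : X →L[𝕜] X} {y : ℕ → X} (hy : y ∈ Orb V) : (fun k => y (k + 1)) ∈ Orb V :=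
  fun k => hy (k + 1)

/-- `V` is quasinilpotent: `‖Vⁿ‖` decays faster than every exponential. -/
def QuasiNilpotent (V : X →L[𝕜] X) : Prop :=
  ∀ c : ℝ, Tendsto (fun n : ℕ => c ^ n * ‖V ^ n‖) atTop (𝓝 0)

lemma frechet [CompleteSpace X] {V : X →L[𝕜] X} {W : Submodule 𝕜 (ℕ → X)} (hWV : W = Orb V) :
    IsFrechetSpace 𝕜 W where
  isUniformAddGroup := W.toAddSubgroup.isUniformAddGroup
  continuousSMul := inferInstance
  t2 := inferInstance
  complete := by
    have h : IsClosed (W : Set (ℕ → X)) := by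
      have : (W : Set (ℕ → X)) = ⋂ k, {y | V (y (k + 1)) = y k} := by
        ext y
        rw [hWV]
        simp only [mem_iInter]
        rfl
      rw [this]
      exact isClosed_iInter fun k => isClosed_eq
        (V.continuous.comp (continuous_apply (k + 1))) (continuous_apply k)
    exact h.completeSpace_coe
  countable := by
    rw [uniformity_subtype]
    infer_instance
  polynormable := inferInstance

lemma isUnit_sub [CompleteSpace X] {V : X →L[𝕜] X} (hV : QuasiNilpotent V) {μ : 𝕜} (hμ : μ ≠ 0) :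
    IsUnit (V - μ • (1 : X →L[𝕜] X)) := by
  set T : X →L[𝕜] X := μ⁻¹ • V with hT
  have h1 := hV ‖μ⁻¹‖
  have h2 : ∀ᶠ n : ℕ in atTop, ‖μ⁻¹‖ ^ n * ‖V ^ n‖ < 1 := h1.eventually (gt_mem_nhds one_pos)
  obtain ⟨n, hn⟩ := h2.exists
  have h3 : ‖T ^ n‖ < 1 := by
    rw [hT, smul_pow, norm_smul, norm_pow]
    exact hn
  have h4 : IsUnit ((1 - T) * ∑ i ∈ Finset.range n, T ^ i) := by
    rw [mul_neg_geom_sum]
    exact (Units.oneSub (T ^ n) h3).isUnit
  have hcomm : Commute (1 - T) (∑ i ∈ Finset.range n, T ^ i) := by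
    apply Commute.sum_right
    intro i _
    exact ((Commute.one_left _).sub_left (Commute.refl T |>.pow_right i))
  have h5 : IsUnit (1 - T) := (hcomm.isUnit_mul_iff.mp h4).1
  have h6 : V - μ • (1 : X →L[𝕜] X) = (Units.mk0 (-μ) (neg_ne_zero.mpr hμ)) • (1 - T) := by
    rw [Units.smul_def, Units.val_mk0, hT, smul_sub, smul_smul, neg_mul, mul_inv_cancel₀ hμ,
      neg_smul, neg_smul, one_smul]
    abel
  rw [h6]
  exact (isUnit_smul_iff _ _).mpr h5

lemma bijective [CompleteSpace X] {V : X →L[𝕜] X} (hV : QuasiNilpotent V)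
    {W : Submodule 𝕜 (ℕ → X)} (hWV : W = Orb V) (hW : ∀ y ∈ W, (fun k => y (k + 1)) ∈ W) (μ : 𝕜) :
    Function.Bijective fun y : W => y - μ • shift W hW y := by
  have hmem : ∀ {y : ℕ → X}, y ∈ W ↔ ∀ k, V (y (k + 1)) = y k := by
    intro y
    rw [hWV]
    exact Iff.rfl
  rcases eq_or_ne μ 0 with rfl | hμ
  · have : (fun y : W => y - (0 : 𝕜) • shift W hW y) = id := by
      funext y
      simp
    rw [this]
    exact Function.bijective_id
  obtain ⟨A, hA⟩ := isUnit_sub hV hμ
  have hA1 : ∀ x, V (A.inv x) = μ • A.inv x + x := by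
    intro x
    have h : (V - μ • (1 : X →L[𝕜] X)) (A.inv x) = x := by
      rw [← hA]
      have := A.val_inv
      exact congrArg (fun T : X →L[𝕜] X => T x) this
    have h' : V (A.inv x) - μ • A.inv x = x := h
    rw [add_comm]
    exact sub_eq_iff_eq_add.mp h'
  have hA2 : ∀ x, A.inv (V x) = μ • A.inv x + x := by
    intro x
    have h : A.inv ((V - μ • (1 : X →L[𝕜] X)) x) = x := by
      rw [← hA]
      have := A.inv_val
      exact congrArg (fun T : X →L[𝕜] X => T x) this
    have h' : A.inv (V x) - μ • A.inv x = x := by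
      rw [← map_smul, ← map_sub]
      exact h
    rw [add_comm]
    exact sub_eq_iff_eq_add.mp h'
  constructor
  · intro y z hyz
    have h0 : ∀ k, (y - z).1 k = μ • (y - z).1 (k + 1) := by
      intro k
      have h := congrFun (congrArg Subtype.val hyz) k
      have h' : y.1 k - μ • y.1 (k + 1) = z.1 k - μ • z.1 (k + 1) := h
      show y.1 k - z.1 k = μ • (y.1 (k + 1) - z.1 (k + 1))
      rw [smul_sub]
      have := sub_eq_sub_iff_add_eq_add.mp h'
      rw [sub_eq_sub_iff_add_eq_add, this, add_comm]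
    have h1 : ∀ k, (y - z).1 (k + 1) = 0 := by
      intro k
      have h2 := hmem.mp (y - z).2 k
      rw [h0 k] at h2
      have h3 := hA2 ((y - z).1 (k + 1))
      rw [h2, map_smul] at h3
      exact (left_eq_add.mp h3)
    have h2 : y - z = 0 := by
      apply Subtype.ext
      funext k
      cases k with
      | zero =>
        rw [h0 0, h1 0, smul_zero]
        rfl
      | succ k => exact h1 k
    exact sub_eq_zero.mp h2
  · intro z
    have hz := hmem.mp z.2
    refine ⟨⟨fun k => V (A.inv (z.1 k)), hmem.mpr fun k => ?_⟩, ?_⟩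
    · show V (V (A.inv (z.1 (k + 1)))) = V (A.inv (z.1 k))
      rw [← hz k, hA1, hA2]
    · apply Subtype.ext
      funext k
      show V (A.inv (z.1 k)) - μ • V (A.inv (z.1 (k + 1))) = z.1 k
      rw [← hz k, hA2, map_add, map_smul, add_sub_cancel_left]

lemma iterate_shift {W : Submodule 𝕜 (ℕ → X)} (hW : ∀ y ∈ W, (fun k => y (k + 1)) ∈ W) (y : W)
    (k j : ℕ) : ((shift W hW)^[k] y).1 j = y.1 (j + k) := by
  induction k generalizing j with
  | zero => rfl
  | succ k ih =>
    rw [Function.iterate_succ_apply']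
    show ((shift W hW)^[k] y).1 (j + 1) = _
    rw [ih, add_assoc, add_comm 1 k]

/-- the terms of the Neumann series tend to infinity -/
lemma terms {V : X →L[𝕜] X} (hV : QuasiNilpotent V)
    {W : Submodule 𝕜 (ℕ → X)} (hWV : W = Orb V) (hW : ∀ y ∈ W, (fun k => y (k + 1)) ∈ W)
    {y : W} (hy : y ≠ 0) {μ : 𝕜} (hμ : μ ≠ 0) :
    ∃ j, Tendsto (fun k : ℕ => ‖(μ ^ k • (shift W hW)^[k] y).1 j‖) atTop atTop := by
  have hmem : ∀ k, V (y.1 (k + 1)) = y.1 k := by
    have h : ∀ z ∈ W, ∀ k, V (z (k + 1)) = z k := by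
      rw [hWV]
      exact fun z hz => hz
    exact h y.1 y.2
  obtain ⟨j, hj⟩ : ∃ j, y.1 j ≠ 0 := by
    by_contra h
    push Not at h
    exact hy (Subtype.ext (funext h))
  have hpow : ∀ k, (V ^ k) (y.1 (j + k)) = y.1 j := by
    intro k
    induction k with
    | zero => simp
    | succ k ih =>
      rw [pow_succ]
      show (V ^ k) (V (y.1 (j + (k + 1)))) = _
      rw [← add_assoc, hmem, ih]
  have hval : ∀ k : ℕ, (μ ^ k • (shift W hW)^[k] y).1 j = μ ^ k • y.1 (j + k) := by
    intro k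
    show μ ^ k • ((shift W hW)^[k] y).1 j = _
    rw [iterate_shift]
  refine ⟨j, ?_⟩
  have hb : ∀ k : ℕ, ‖y.1 j‖ ≤ (‖μ⁻¹‖ ^ k * ‖V ^ k‖) * ‖(μ ^ k • (shift W hW)^[k] y).1 j‖ := by
    intro k
    rw [hval, norm_smul, norm_pow μ k]
    have h1 := (V ^ k).le_opNorm (y.1 (j + k))
    rw [hpow] at h1
    refine h1.trans (le_of_eq ?_)
    rw [norm_inv, inv_pow]
    have : ‖μ‖ ^ k ≠ 0 := pow_ne_zero _ (norm_ne_zero_iff.mpr hμ)
    generalize ‖V ^ k‖ = a
    field_simp
  have h2 := hV ‖μ⁻¹‖
  rw [tendsto_atTop]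
  intro M
  have hj' : 0 < ‖y.1 j‖ := norm_pos_iff.mpr hj
  have h3 : ∀ᶠ k : ℕ in atTop, ‖μ⁻¹‖ ^ k * ‖V ^ k‖ < ‖y.1 j‖ / (|M| + 1) :=
    h2.eventually (gt_mem_nhds (by positivity))
  filter_upwards [h3] with k hk
  by_contra hlt
  push Not at hlt
  have h4 := hb k
  have h5 : ‖(μ ^ k • (shift W hW)^[k] y).1 j‖ ≤ |M| := hlt.le.trans (le_abs_self M)
  have h6 : (‖μ⁻¹‖ ^ k * ‖V ^ k‖) * ‖(μ ^ k • (shift W hW)^[k] y).1 j‖ ≤
      ‖y.1 j‖ / (|M| + 1) * |M| := by gcongr
  have h7 : ‖y.1 j‖ / (|M| + 1) * |M| < ‖y.1 j‖ := by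
    rw [div_mul_eq_mul_div, div_lt_iff₀ (by positivity)]
    nlinarith
  linarith

lemma diverges {V : X →L[𝕜] X} (hV : QuasiNilpotent V)
    {W : Submodule 𝕜 (ℕ → X)} (hWV : W = Orb V) (hW : ∀ y ∈ W, (fun k => y (k + 1)) ∈ W)
    {y : W} (hy : y ≠ 0) {μ : 𝕜} (hμ : μ ≠ 0) (s : W) :
    ¬ NeumannConvergesTo (shift W hW) μ y s := by
  intro hs
  obtain ⟨j, hj⟩ := terms hV hWV hW hy hμ
  have hcont : Continuous fun z : W => z.1 j := (continuous_apply j).comp continuous_subtype_val
  have h1 := (hcont.tendsto s).comp hs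
  have h2 := (h1.comp (tendsto_add_atTop_nat 1)).sub h1
  rw [sub_self] at h2
  have h3 : Tendsto (fun k : ℕ => (μ ^ k • (shift W hW)^[k] y).1 j) atTop (𝓝 0) := by
    refine h2.congr fun k => ?_
    show (∑ i ∈ Finset.range (k + 1), μ ^ i • (shift W hW)^[i] y).1 j -
      (∑ i ∈ Finset.range k, μ ^ i • (shift W hW)^[i] y).1 j = _
    rw [Finset.sum_range_succ]
    show (∑ i ∈ Finset.range k, μ ^ i • (shift W hW)^[i] y).1 j +
      (μ ^ k • (shift W hW)^[k] y).1 j - _ = _
    rw [add_sub_cancel_left]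
  have h4 := h3.norm
  rw [norm_zero] at h4
  exact not_tendsto_nhds_of_tendsto_atTop hj 0 h4

end General

/-! ### The flat smooth functions -/

section Flat

/-- the interval `[0, 1]` -/
abbrev I : Type := Icc (0 : ℝ) 1

variable (𝕜 : Type) [RCLike 𝕜]

/-- A continuous function on `[0, 1]`, extended to the real line by constants. -/
noncomputable def ext {𝕜 : Type} [RCLike 𝕜] (f : C(I, 𝕜)) : ℝ → 𝕜 :=
  IccExtend (zero_le_one : (0 : ℝ) ≤ 1) f

/-- The space of the smooth functions `f : [0, 1] → 𝕜` whose derivatives of all orders `k ≥ 0` vanish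
at `0`. The function is given together with all its derivatives, as the sequence
`y = (f, f', f'', ...)`; the topology (as a subspace of the product of the Banach spaces
`C[0, 1]`) is that of uniform convergence of the functions and of all their derivatives. -/
def Flat : Submodule 𝕜 (ℕ → C(I, 𝕜)) where
  carrier := {y | ∀ k, y k 0 = 0 ∧
    ∀ x : I, HasDerivWithinAt (ext (y k)) (y (k + 1) x) (Icc 0 1) x}
  add_mem' := by
    intro y z hy hz k
    refine ⟨?_, fun x => ?_⟩
    · show y k 0 + z k 0 = 0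
      rw [(hy k).1, (hz k).1, add_zero]
    · exact ((hy k).2 x).add ((hz k).2 x)
  zero_mem' := by
    intro k
    refine ⟨rfl, fun x => ?_⟩
    show HasDerivWithinAt (fun _ => (0 : 𝕜)) 0 _ _
    exact hasDerivWithinAt_const _ _ _
  smul_mem' := by
    intro c y hy k
    refine ⟨?_, fun x => ?_⟩
    · show c * y k 0 = 0
      rw [(hy k).1, mul_zero]
    · exact ((hy k).2 x).const_smul c

lemma Flat_shift : ∀ y ∈ Flat 𝕜, (fun k => y (k + 1)) ∈ Flat 𝕜 := fun _ hy k => hy (k + 1)

/-- The derivative `D f = f'` on the space `Flat 𝕜`. -/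
noncomputable def D : Flat 𝕜 →L[𝕜] Flat 𝕜 := shift (Flat 𝕜) (Flat_shift 𝕜)

variable {𝕜}

lemma ext_continuous (f : C(I, 𝕜)) : Continuous (ext f) := f.continuous.Icc_extend'

lemma ext_apply (f : C(I, 𝕜)) (x : I) : ext f x = f x := IccExtend_val _ _ _

lemma ext_norm (f : C(I, 𝕜)) (x : ℝ) : ‖ext f x‖ ≤ ‖f‖ := f.norm_coe_le_norm _

/-- The Volterra operator. -/
noncomputable def vol : C(I, 𝕜) →L[𝕜] C(I, 𝕜) :=
  LinearMap.mkContinuous
    { toFun := fun f => ⟨fun x => ∫ t in (0 : ℝ)..x, ext f t,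
        (intervalIntegral.continuous_primitive
          (fun a b => (ext_continuous f).intervalIntegrable a b) 0).comp continuous_subtype_val⟩
      map_add' := by
        intro f g
        ext x
        show ∫ t in (0 : ℝ)..x, ext (f + g) t =
          (∫ t in (0 : ℝ)..x, ext f t) + ∫ t in (0 : ℝ)..x, ext g t
        rw [← intervalIntegral.integral_add ((ext_continuous f).intervalIntegrable _ _)
          ((ext_continuous g).intervalIntegrable _ _)]
        rfl
      map_smul' := by
        intro c f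
        ext x
        show ∫ t in (0 : ℝ)..x, ext (c • f) t = c • ∫ t in (0 : ℝ)..x, ext f t
        rw [← intervalIntegral.integral_smul]
        rfl } 1 (by
    intro f
    rw [one_mul, ContinuousMap.norm_le _ (norm_nonneg f)]
    intro x
    show ‖∫ t in (0 : ℝ)..x, ext f t‖ ≤ ‖f‖
    have h := intervalIntegral.norm_integral_le_of_norm_le_const (a := 0) (b := (x : ℝ))
      (f := ext f) (C := ‖f‖) (fun t _ => ext_norm f t)
    refine h.trans ?_
    rw [sub_zero, abs_of_nonneg x.2.1]
    exact mul_le_of_le_one_right (norm_nonneg f) x.2.2)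

lemma vol_apply (f : C(I, 𝕜)) (x : I) : vol f x = ∫ t in (0 : ℝ)..x, ext f t := rfl

lemma vol_pow (n : ℕ) (f : C(I, 𝕜)) (x : I) :
    ‖(vol ^ n : C(I, 𝕜) →L[𝕜] C(I, 𝕜)) f x‖ ≤ (x : ℝ) ^ n / n.factorial * ‖f‖ := by
  induction n generalizing x with
  | zero =>
    simp only [pow_zero, Nat.factorial_zero, Nat.cast_one, div_one, one_mul]
    exact f.norm_coe_le_norm x
  | succ n ih =>
    rw [pow_succ']
    show ‖vol ((vol ^ n : C(I, 𝕜) →L[𝕜] C(I, 𝕜)) f) x‖ ≤ _
    rw [vol_apply]
    set g := (vol ^ n : C(I, 𝕜) →L[𝕜] C(I, 𝕜)) f with hg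
    have h1 : ‖∫ t in (0 : ℝ)..x, ext g t‖ ≤ ∫ t in (0 : ℝ)..x, t ^ n / n.factorial * ‖f‖ := by
      apply intervalIntegral.norm_integral_le_of_norm_le x.2.1
      · refine Eventually.of_forall fun t ht => ?_
        have ht' : t ∈ Icc (0 : ℝ) 1 := ⟨ht.1.le, ht.2.trans x.2.2⟩
        have h2 := ih ⟨t, ht'⟩
        have h3 : ext g t = g ⟨t, ht'⟩ := ext_apply g ⟨t, ht'⟩
        rw [h3]
        exact h2
      · apply Continuous.intervalIntegrable
        fun_prop
    refine h1.trans (le_of_eq ?_)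
    rw [intervalIntegral.integral_mul_const, intervalIntegral.integral_div, integral_pow]
    rw [Nat.factorial_succ]
    push_cast
    have : (n.factorial : ℝ) ≠ 0 := by positivity
    field_simp
    ring

lemma vol_quasiNilpotent : QuasiNilpotent (vol : C(I, 𝕜) →L[𝕜] C(I, 𝕜)) := by
  have hb : ∀ n : ℕ, ‖(vol ^ n : C(I, 𝕜) →L[𝕜] C(I, 𝕜))‖ ≤ 1 / n.factorial := by
    intro n
    apply ContinuousLinearMap.opNorm_le_bound _ (by positivity)
    intro f
    rw [ContinuousMap.norm_le _ (by positivity)]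
    intro x
    refine (vol_pow n f x).trans ?_
    gcongr
    exact pow_le_one₀ x.2.1 x.2.2
  intro c
  have h := FloorSemiring.tendsto_pow_div_factorial_atTop |c|
  refine squeeze_zero_norm (fun n => ?_) h
  rw [norm_mul, norm_norm, norm_pow, Real.norm_eq_abs, div_eq_mul_one_div]
  gcongr
  exact hb n

/-- The flat smooth functions are the backward orbits of the Volterra operator. -/
lemma Flat_eq : Flat 𝕜 = Orb (vol : C(I, 𝕜) →L[𝕜] C(I, 𝕜)) := by
  ext y
  constructor
  · intro hy k
    ext x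
    rw [vol_apply]
    have h1 : ∫ t in (0 : ℝ)..x, ext (y (k + 1)) t = ext (y k) x - ext (y k) 0 := by
      apply intervalIntegral.integral_eq_sub_of_hasDerivAt_of_le x.2.1
      · exact (ext_continuous _).continuousOn
      · intro t ht
        have ht' : t ∈ Icc (0 : ℝ) 1 := ⟨ht.1.le, ht.2.le.trans x.2.2⟩
        have h2 := (hy k).2 ⟨t, ht'⟩
        rw [← ext_apply] at h2
        exact h2.hasDerivAt (Icc_mem_nhds ht.1 (ht.2.trans_le x.2.2))
      · exact (ext_continuous _).intervalIntegrable _ _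
    have h3 : ext (y k) 0 = 0 := by
      have := ext_apply (y k) 0
      rw [(hy k).1] at this
      exact this
    rw [h1, h3, sub_zero, ext_apply]
  · intro hy k
    have hk : y k = vol (y (k + 1)) := (hy k).symm
    refine ⟨?_, fun x => ?_⟩
    · rw [hk, vol_apply]
      show ∫ t in (0 : ℝ)..(0 : ℝ), _ = _
      exact intervalIntegral.integral_same
    · have h1 : HasDerivAt (fun u => ∫ t in (0 : ℝ)..u, ext (y (k + 1)) t)
          (ext (y (k + 1)) x) x :=
        intervalIntegral.integral_hasDerivAt_right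
          ((ext_continuous _).intervalIntegrable _ _)
          (ext_continuous _).stronglyMeasurable.stronglyMeasurableAtFilter
          (ext_continuous _).continuousAt
      rw [ext_apply] at h1
      refine h1.hasDerivWithinAt.congr ?_ ?_
      · intro t ht
        have := ext_apply (y k) ⟨t, ht⟩
        rw [hk, vol_apply] at this
        rw [hk]
        exact this
      · rw [ext_apply, hk, vol_apply]

/-- the derivatives of `exp (-1/x)` are flat -/
lemma exists_flat : ∃ f : Flat 𝕜, f ≠ 0 := by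
  have hsm : ContDiff ℝ ((⊤ : ℕ∞) : WithTop ℕ∞) expNegInvGlue := expNegInvGlue.contDiff
  have hcont : ∀ k, Continuous (iteratedDeriv k expNegInvGlue) := fun k =>
    hsm.continuous_iteratedDeriv k (by exact_mod_cast le_top)
  have hder : ∀ k x, HasDerivAt (iteratedDeriv k expNegInvGlue)
      (iteratedDeriv (k + 1) expNegInvGlue x) x := by
    intro k x
    rw [iteratedDeriv_succ]
    have : Differentiable ℝ (iteratedDeriv k expNegInvGlue) :=
      hsm.differentiable_iteratedDeriv k (by exact_mod_cast WithTop.coe_lt_top _)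
    exact (this x).hasDerivAt
  have hneg : ∀ k, ∀ x < 0, iteratedDeriv k expNegInvGlue x = 0 := by
    intro k
    induction k with
    | zero =>
      intro x hx
      rw [iteratedDeriv_zero]
      exact expNegInvGlue.zero_of_nonpos hx.le
    | succ k ih =>
      intro x hx
      rw [iteratedDeriv_succ]
      have h1 : iteratedDeriv k expNegInvGlue =ᶠ[𝓝 x] fun _ => 0 := by
        filter_upwards [Iio_mem_nhds hx] with t ht using ih t ht
      rw [h1.deriv_eq, deriv_const]
  have hzero : ∀ k, iteratedDeriv k expNegInvGlue 0 = 0 := by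
    intro k
    have h1 : Tendsto (iteratedDeriv k expNegInvGlue) (𝓝[<] 0)
        (𝓝 (iteratedDeriv k expNegInvGlue 0)) :=
      ((hcont k).tendsto 0).mono_left nhdsWithin_le_nhds
    have h2 : Tendsto (iteratedDeriv k expNegInvGlue) (𝓝[<] 0) (𝓝 0) := by
      refine tendsto_const_nhds.congr' ?_
      filter_upwards [self_mem_nhdsWithin] with t ht using (hneg k t ht).symm
    exact tendsto_nhds_unique h1 h2
  let y : ℕ → C(I, 𝕜) := fun k =>
    ⟨fun x => ((iteratedDeriv k expNegInvGlue x : ℝ) : 𝕜),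
      RCLike.continuous_ofReal.comp ((hcont k).comp continuous_subtype_val)⟩
  have hy : y ∈ Flat 𝕜 := by
    intro k
    refine ⟨?_, fun x => ?_⟩
    · show ((iteratedDeriv k expNegInvGlue 0 : ℝ) : 𝕜) = 0
      rw [hzero, RCLike.ofReal_zero]
    · have h1 : HasDerivAt (fun u => ((iteratedDeriv k expNegInvGlue u : ℝ) : 𝕜))
          ((iteratedDeriv (k + 1) expNegInvGlue x : ℝ) : 𝕜) x :=
        (RCLike.ofRealCLM (K := 𝕜)).hasFDerivAt.comp_hasDerivAt (x : ℝ) (hder k x)
      refine h1.hasDerivWithinAt.congr ?_ ?_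
      · intro t ht
        exact ext_apply (y k) ⟨t, ht⟩
      · exact ext_apply (y k) x
  refine ⟨⟨y, hy⟩, fun h => ?_⟩
  have h1 : y 0 1 = 0 := by
    have : y = 0 := congrArg Subtype.val h
    rw [this]
    rfl
  have h2 : ((expNegInvGlue 1 : ℝ) : 𝕜) = 0 := h1
  have h3 : expNegInvGlue 1 = 0 := by exact_mod_cast h2
  exact (expNegInvGlue.pos_of_pos one_pos).ne' h3

end Flat

section Result

variable {𝕜 X : Type} [RCLike 𝕜] [NormedAddCommGroup X] [NormedSpace 𝕜 X]

/-- The shift on the backward orbits of `V`. -/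
def orbShift (V : X →L[𝕜] X) : Orb V →L[𝕜] Orb V := shift (Orb V) fun _ hy => shift_mem hy

/-- `I - μ U` is bijective for every scalar `μ`. -/
def AllInvertible {E : Type} [AddCommGroup E] [Module 𝕜 E] [UniformSpace E] (U : E →L[𝕜] E) :
    Prop :=
  ∀ μ : 𝕜, Function.Bijective fun x : E => x - μ • U x

/-- For every `x ≠ 0` and every `μ ≠ 0` the Neumann series `∑ μᵏ Uᵏ x` does not converge. -/
def AllDiverge {E : Type} [AddCommGroup E] [Module 𝕜 E] [UniformSpace E] (U : E →L[𝕜] E) :
    Prop :=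
  ∀ x : E, x ≠ 0 → ∀ μ : 𝕜, μ ≠ 0 → ∀ s : E, ¬ NeumannConvergesTo U μ x s

/-- For every `y ≠ 0` in the space `W` of sequences in `X` and every `μ ≠ 0` there is a `j` such that
the norm of the `j`-th member of the sequence `μᵏ Uᵏ y` tends to infinity for `k → ∞`. -/
def TermsUnbounded {W : Submodule 𝕜 (ℕ → X)} (U : W →L[𝕜] W) : Prop :=
  ∀ y : W, y ≠ 0 → ∀ μ : 𝕜, μ ≠ 0 →
    ∃ j, Tendsto (fun k : ℕ => ‖(μ ^ k • U^[k] y).1 j‖) atTop atTop

/-- **The Neumann series of the derivative on flat smooth functions.** Let `𝕜` be `ℝ` or `ℂ`.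

* `Flat 𝕜` is a nonzero Fréchet space, for the derivative `D` on it `I - μ D` is a bijection for
  every scalar `μ`, and for every `f ≠ 0` and every `μ ≠ 0` the Neumann series `∑ μᵏ Dᵏ f` does not
  converge; even more, for some `j` the maximum on `[0, 1]` of the absolute value of the `j`-th
  derivative of `μᵏ Dᵏ f` tends to infinity for `k → ∞`.
* The same holds for the shift on the Fréchet space `Orb V` of all sequences `y` with
  `V (y (k + 1)) = y k`, where `V` is any quasinilpotent operator on any Banach space `X`. -/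
theorem result (𝕜 : Type) [RCLike 𝕜] :
    ((∃ f : Flat 𝕜, f ≠ 0) ∧ IsFrechetSpace 𝕜 (Flat 𝕜) ∧
      AllInvertible (𝕜 := 𝕜) (E := Flat 𝕜) (D 𝕜) ∧ AllDiverge (𝕜 := 𝕜) (E := Flat 𝕜) (D 𝕜) ∧
      TermsUnbounded (D 𝕜)) ∧
    (∀ (X : Type) [NormedAddCommGroup X] [NormedSpace 𝕜 X] [CompleteSpace X] (V : X →L[𝕜] X),
      QuasiNilpotent V → IsFrechetSpace 𝕜 (Orb V) ∧
        AllInvertible (𝕜 := 𝕜) (E := Orb V) (orbShift V) ∧
        AllDiverge (𝕜 := 𝕜) (E := Orb V) (orbShift V) ∧ TermsUnbounded (orbShift V)) := by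
  refine ⟨⟨exists_flat, frechet Flat_eq, bijective vol_quasiNilpotent Flat_eq _, ?_, ?_⟩, ?_⟩
  · intro f hf μ hμ
    exact diverges vol_quasiNilpotent Flat_eq _ hf hμ
  · intro f hf μ hμ
    exact terms vol_quasiNilpotent Flat_eq _ hf hμ
  · intro X _ _ _ V hV
    exact ⟨frechet rfl, bijective hV rfl _, fun y hy μ hμ => diverges hV rfl _ hy hμ,
      fun y hy μ hμ => terms hV rfl _ hy hμ⟩

end Result

end Pool.Agent.Results.MP_18d2fb_an.DerivativeOnFlatFunctions
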